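import Pool.Agent.L5helper12.UniC

/-!
# All level sets of the smallest univoque base function are closed

For `x > 0` let `U x` be the set of the bases `q` in `(1, 2]` in which `x` has exactly one expansion with
digits `0` and `1`, and `q_s(x) = inf U x`. We show that for every `q` in `(1, 2]` the level set
`{x > 0 | q_s(x) = q}` is closed in `(0, ∞)`.

Proof. Let `q < 2`, `y_k → x`, `q_s(y_k) = q`; the points `y_k` have weakly univoque expansions `D_k` in
base `q` (after each digit `0` the value of the tail is at most `1`, after each `1` it is at least
`1 / (q - 1) - 1`). (1) No base `r < q` is in `U x`: if `s` is the univoque expansion of `x` in base `r`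
then `s` gives smaller bases for the `y_k < x`. If there are `y_k > x`, and if `s` is not univoque in any
base below `r`, then `1` has a weakly univoque expansion `a` in base `r`, and there are arbitrarily large
`p` with `s_p = 0` such that `s_0 ... s_(p-1) 1` followed by the reflection of `a` is weakly univoque in
base `r`; the value of this sequence is larger than `x` in base `r` and smaller than `x` in a slightly
larger base if `p` is large, so all `y > x` close to `x` have univoque bases below `q`. (2) If
`y_k ↑ x` then a limit `D` of the `D_k` is an expansion of `x` in base `q`, weakly univoque with strict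
inequalities after the digits `1`. If it is not univoque then it is `u 0 a` with an expansion `a` of `1`,
and `x` is the value of `u 1` in base `q`. There are arbitrarily large `M` such that the periodic
sequence `e` with period `a_1 ... a_(M-1) 0`, `a_M = 1`, is the quasi-greedy expansion of `1` in a base
`r < q`; the value of `u 0 e` is larger than `x` in base `r` and smaller than `x` in base `q`, so that
`x` has a univoque base between `r` and `q`, in contradiction to (1). The files used are those of the
proof of the case of the Komornik–Loreti constant.
-/

set_option autoImplicit false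

namespace Pool.Agent.Results.MP_e299c6_nt.AllLevelSets

open Pool.Agent.R341.Uni Pool.Agent.L5helper12.Uni

/-- The univoque bases of `x`: the numbers `q ∈ (1, 2]` for which there is exactly one sequence `d` of
digits `0`, `1` (`false`, `true`) with `x = ∑ d_i q ^ (-i)`, `i = 1, 2, ...`. -/
noncomputable def univoqueBases (x : ℝ) : Set ℝ :=
  {q | 1 < q ∧ q ≤ 2 ∧ ∃! d : ℕ → Bool, ∑' i : ℕ, (if d i = true then (1 : ℝ) else 0) / q ^ (i + 1) = x}

/-- The level set of `q_s(x) = inf (univoqueBases x)` at the height `q`, a subset of `(0, ∞)`. -/
def levelSet (q : ℝ) : Set (Set.Ioi (0 : ℝ)) := {x | sInf (univoqueBases (x : ℝ)) = q}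

theorem bases_eq (x : ℝ) : univoqueBases x = Ux x := by
  ext q
  have : ∀ d : ℕ → Bool, ∑' i : ℕ, (if d i = true then (1 : ℝ) else 0) / q ^ (i + 1) = P q d := by
    intro d
    unfold P
    refine tsum_congr fun i => ?_
    cases d i <;> simp [dg]
  simp only [univoqueBases, Ux, Set.mem_ofPred_eq, this]

/-- **All level sets of the smallest univoque base function are closed in `(0, ∞)`.** -/
theorem result (q : ℝ) (h1 : 1 < q) (h2 : q ≤ 2) : IsClosed (levelSet q) := by
  rcases h2.lt_or_eq with h2 | h2
  · rw [← closure_subset_iff_isClosed]
    intro x hx
    rw [closure_subtype] at hx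
    have hsub : Subtype.val '' (levelSet q) ⊆ LvInf q := by
      rintro _ ⟨y, hy, rfl⟩
      refine ⟨y.2, ?_⟩
      have h3 : sInf (univoqueBases (y : ℝ)) = q := hy
      rwa [bases_eq] at h3
    have h4 := (closed_all h1 h2 x.2 (closure_mono hsub hx)).2
    show sInf (univoqueBases (x : ℝ)) = q
    rw [bases_eq]
    exact h4
  · have : levelSet q = ∅ := by
      ext x
      simp only [Set.mem_empty_iff_false, iff_false]
      intro hx
      have h3 : sInf (univoqueBases (x : ℝ)) = q := hx
      rw [bases_eq, h2] at h3
      have h4 : (x : ℝ) ∈ {x : ℝ | 0 < x ∧ sInf (Ux x) = 2} := ⟨x.2, h3⟩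
      rw [level_two] at h4
      exact h4
    rw [this]
    exact isClosed_empty

end Pool.Agent.Results.MP_e299c6_nt.AllLevelSets
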